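import Pool.Agent.Lib.SW.TS.TS9

/-!
# GL-1: the local-global principle for P + S outside a set of size X/(log X)^K

For every set `S` and all but `X/(log X)^K` of the `N ≤ X` the number of `s ∈ S` with `N - s` prime is
`∑ 1/(V log (N - s))` over the `s ∈ S` with `N - s` free of prime factors `≤ z = (log X)^B`, up to
`X/(log X)^K`.
-/

set_option autoImplicit false

open Finset Pool.Agent.Lib.GT

namespace Pool.Agent.Lib.SW

/-- total variation of `1/log` -/
theorem GL1_var (Y : ℕ) (hY : 2 ≤ Y) :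
    ∑ m ∈ range Y, |1 / Real.log ((m + 1 : ℕ) : ℝ) - 1 / Real.log (m : ℝ)| =
      2 / Real.log 2 - 1 / Real.log Y := by
  induction Y, hY using Nat.le_induction with
  | base =>
    rw [sum_range_succ, sum_range_succ, sum_range_zero]
    have h0 : 0 < Real.log 2 := Real.log_pos (by norm_num)
    simp only [Nat.cast_zero, Nat.cast_one, Nat.cast_ofNat, zero_add, Real.log_zero, Real.log_one,
      div_zero, sub_zero, abs_zero, Nat.reduceAdd]
    rw [abs_of_pos (by positivity)]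
    ring
  | succ Y hY ih =>
    rw [sum_range_succ, ih]
    have hY2 : (2 : ℝ) ≤ Y := by exact_mod_cast hY
    have h1 : 0 < Real.log Y := Real.log_pos (by linarith)
    have h2 : Real.log Y ≤ Real.log ((Y + 1 : ℕ) : ℝ) := by
      apply Real.log_le_log (by linarith)
      push_cast
      linarith
    have h3 : 1 / Real.log ((Y + 1 : ℕ) : ℝ) ≤ 1 / Real.log Y := one_div_le_one_div_of_le h1 h2
    rw [abs_of_nonpos (by linarith)]
    ring

theorem GL1_abel (f : ℕ → ℂ) (M : ℝ) (hM0 : 0 ≤ M) (Y : ℕ)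
    (hM : ∀ Z : ℕ, Z ≤ Y → ‖∑ n ∈ Icc 1 Z, f n‖ ≤ M) :
    ‖∑ n ∈ Icc 1 Y, f n * ((1 / Real.log (n : ℝ) : ℝ) : ℂ)‖ ≤ 3 * M := by
  have hl2 : (2 / 3 : ℝ) ≤ Real.log 2 := by
    have := Real.log_two_gt_d9
    linarith
  have hl0 : 0 < Real.log 2 := by linarith
  rcases Nat.lt_or_ge Y 2 with hY | hY
  · interval_cases Y
    · simp only [Icc_eq_empty_of_lt (show (0 : ℕ) < 1 by norm_num), sum_empty, norm_zero]
      positivity
    · simp only [Icc_self, sum_singleton, Nat.cast_one, Real.log_one, div_zero, Complex.ofReal_zero,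
        mul_zero, norm_zero]
      positivity
  · rw [FourierSW_abel_id f (fun n => ((1 / Real.log (n : ℝ) : ℝ) : ℂ))]
    have hY2 : (2 : ℝ) ≤ Y := by exact_mod_cast hY
    have h0 : 0 < Real.log Y := Real.log_pos (by linarith)
    have h1 : ‖(∑ n ∈ Icc 1 Y, f n) * ((1 / Real.log (Y : ℝ) : ℝ) : ℂ)‖ ≤
        M * (1 / Real.log Y) := by
      rw [norm_mul, Complex.norm_real, Real.norm_eq_abs, abs_of_pos (by positivity)]
      exact mul_le_mul_of_nonneg_right (hM Y le_rfl) (by positivity)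
    have h2 : ‖∑ m ∈ range Y, (∑ n ∈ Icc 1 m, f n) *
        (((1 / Real.log ((m + 1 : ℕ) : ℝ) : ℝ) : ℂ) - ((1 / Real.log (m : ℝ) : ℝ) : ℂ))‖ ≤
        M * (2 / Real.log 2 - 1 / Real.log Y) := by
      rw [← GL1_var Y hY, mul_sum]
      refine (norm_sum_le _ _).trans (sum_le_sum fun m hm => ?_)
      rw [mem_range] at hm
      rw [norm_mul, ← Complex.ofReal_sub, Complex.norm_real, Real.norm_eq_abs]
      exact mul_le_mul_of_nonneg_right (hM m hm.le) (abs_nonneg _)
    refine (norm_sub_le _ _).trans ((add_le_add h1 h2).trans ?_)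
    have h3 : M * (1 / Real.log Y) + M * (2 / Real.log 2 - 1 / Real.log Y) =
        (2 / Real.log 2) * M := by ring
    rw [h3]
    refine mul_le_mul_of_nonneg_right ?_ hM0
    rw [div_le_iff₀ hl0]
    linarith

/-- difference of the indicator functions of the primes and of the model -/
noncomputable def dz (z n : ℕ) : ℝ := (lam n - rz z n / Vz z) * (1 / Real.log n)

theorem fourier_dz (A : ℕ) : ∃ B₀ : ℕ, ∀ B : ℕ, B₀ ≤ B → ∃ C : ℝ, 0 < C ∧ ∀ X : ℕ, 3 ≤ X →
    ∀ Y : ℕ, Y ≤ X → ∀ α : ℝ,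
      ‖∑ n ∈ Icc 1 Y, ((dz (zB B X) n : ℝ) : ℂ) * e (n * α)‖ ≤ C * X / (Real.log X) ^ A := by
  obtain ⟨B₀, h⟩ := fourier_rz A
  refine ⟨B₀, fun B hB => ?_⟩
  obtain ⟨C, hC, h1⟩ := h B hB
  refine ⟨3 * C, by positivity, fun X hX Y hY α => ?_⟩
  have hX' : (3 : ℝ) ≤ X := by exact_mod_cast hX
  have hL1 := FourierSW_log_three hX'
  have hL : 0 < Real.log X := by linarith
  have h2 := GL1_abel (fun n => ((lam n - rz (zB B X) n / Vz (zB B X) : ℝ) : ℂ) * e (n * α))
    (C * X / (Real.log X) ^ A) (by positivity) Y (fun Z hZ => h1 X hX Z (hZ.trans hY) α)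
  have h3 : ∑ n ∈ Icc 1 Y, ((dz (zB B X) n : ℝ) : ℂ) * e (n * α) =
      ∑ n ∈ Icc 1 Y, ((lam n - rz (zB B X) n / Vz (zB B X) : ℝ) : ℂ) * e (n * α) *
        ((1 / Real.log (n : ℝ) : ℝ) : ℂ) := by
    refine sum_congr rfl fun n _ => ?_
    unfold dz
    push_cast
    ring
  rw [h3]
  refine h2.trans (le_of_eq ?_)
  ring

/-- the expected number of `s ∈ S` with `N - s` prime -/
noncomputable def expected (z : ℕ) (S : Finset ℕ) (N : ℕ) : ℝ :=
  ∑ s ∈ S.filter (fun s => 0 < s ∧ s + 2 ≤ N ∧ Nat.Coprime (N - s) (primorial z)),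
    1 / (Vz z * Real.log ((N - s : ℕ) : ℝ))

/-- the number of `s ∈ S` with `N - s` prime -/
def actual (S : Finset ℕ) (N : ℕ) : ℕ :=
  (S.filter (fun s => 0 < s ∧ s < N ∧ (N - s).Prime)).card

theorem GL1_sum (z : ℕ) (S : Finset ℕ) (N X : ℕ) (hN : N ≤ X) :
    ∑ s ∈ (S ∩ Icc 1 X).filter (fun s => s < N), dz z (N - s) =
      (actual S N : ℝ) - expected z S N := by
  classical
  have h1 : (actual S N : ℝ) = ∑ s ∈ (S ∩ Icc 1 X).filter (fun s => s < N),
      if (N - s).Prime then (1 : ℝ) else 0 := by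
    unfold actual
    rw [← Finset.sum_filter, Finset.sum_const, nsmul_eq_mul, mul_one]
    congr 2
    ext s
    simp only [mem_filter, mem_inter, mem_Icc]
    constructor
    · rintro ⟨h1, h2, h3, h4⟩
      exact ⟨⟨⟨h1, by omega, by omega⟩, h3⟩, h4⟩
    · rintro ⟨⟨⟨h1, h2, h3⟩, h4⟩, h5⟩
      exact ⟨h1, by omega, h4, h5⟩
  have h2 : expected z S N = ∑ s ∈ (S ∩ Icc 1 X).filter (fun s => s < N),
      if s + 2 ≤ N ∧ Nat.Coprime (N - s) (primorial z) then
        1 / (Vz z * Real.log ((N - s : ℕ) : ℝ)) else 0 := by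
    unfold expected
    rw [← Finset.sum_filter]
    refine Finset.sum_congr ?_ fun _ _ => rfl
    ext s
    simp only [mem_filter, mem_inter, mem_Icc]
    constructor
    · rintro ⟨h1, h2, h3, h4⟩
      exact ⟨⟨⟨h1, by omega, by omega⟩, by omega⟩, h3, h4⟩
    · rintro ⟨⟨⟨h1, h2, h3⟩, h4⟩, h5, h6⟩
      exact ⟨h1, by omega, h5, h6⟩
  rw [h1, h2, ← Finset.sum_sub_distrib]
  refine Finset.sum_congr rfl fun s hs => ?_
  rw [mem_filter, mem_inter, mem_Icc] at hs
  obtain ⟨n, hn⟩ : ∃ n : ℕ, n = N - s := ⟨_, rfl⟩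
  rw [← hn]
  have hn1 : 1 ≤ n := by omega
  have hiff : s + 2 ≤ N ↔ 2 ≤ n := by omega
  simp only [hiff]
  unfold dz
  rcases Nat.lt_or_ge n 2 with h | h
  · have hn' : n = 1 := by omega
    subst hn'
    simp [Nat.not_prime_one]
  · have hlog : 0 < Real.log (n : ℝ) := Real.log_pos (by exact_mod_cast (show 1 < n by omega))
    have hV := TS5_Vz_pos z
    have e1 : lam n * (1 / Real.log n) = if n.Prime then (1 : ℝ) else 0 := by
      unfold lam
      split_ifs
      · field_simp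
      · rw [zero_mul]
    have e2 : rz z n / Vz z * (1 / Real.log n) =
        if 2 ≤ n ∧ Nat.Coprime n (primorial z) then 1 / (Vz z * Real.log (n : ℝ)) else 0 := by
      unfold rz
      by_cases hc : Nat.Coprime n (primorial z)
      · rw [if_pos hc, if_pos ⟨h, hc⟩]
        field_simp
      · rw [if_neg hc, if_neg (fun h => hc h.2), zero_div, zero_mul]
    rw [sub_mul, e1, e2]

open Classical in
theorem log_power (K : ℕ) : ∃ B₀ : ℕ, ∀ B : ℕ, B₀ ≤ B → ∃ X₀ : ℕ, ∀ X : ℕ, X₀ ≤ X →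
    ∀ S : Finset ℕ,
      (((Icc 1 X).filter (fun N => X / (Real.log X) ^ K <
        |(actual S N : ℝ) - expected (zB B X) S N|)).card : ℝ) ≤ X / (Real.log X) ^ K := by
  obtain ⟨B₀, h⟩ := fourier_dz (2 * K + 1)
  refine ⟨B₀, fun B hB => ?_⟩
  obtain ⟨C, hC, h1⟩ := h B hB
  obtain ⟨X₁, hX₁⟩ := Filter.eventually_atTop.1 (eventually_log_ge (C ^ 2 + 1))
  refine ⟨max X₁ 3, fun X hX S => ?_⟩
  have hX3 : 3 ≤ X := (le_max_right _ _).trans hX
  have hX' : (3 : ℝ) ≤ X := by exact_mod_cast hX3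
  have hXpos : (0 : ℝ) < X := by linarith
  have hL1 := FourierSW_log_three hX'
  have hL : 0 < Real.log X := by linarith
  have hLC : C ^ 2 + 1 ≤ Real.log X := hX₁ X ((le_max_left _ _).trans hX)
  obtain ⟨L, hLdef⟩ : ∃ L : ℝ, L = Real.log X := ⟨_, rfl⟩
  set f : ℕ → ℝ := fun n => if n ≤ X then dz (zB B X) n else 0 with hf
  have h2 := TS9_conv X (S ∩ Icc 1 X) inter_subset_right f (C * X / (Real.log X) ^ (2 * K + 1))
    (fun α => by
      have h3 : ∑ n ∈ Icc 1 (2 * X), ((f n : ℝ) : ℂ) * e (n * α) =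
          ∑ n ∈ Icc 1 X, ((dz (zB B X) n : ℝ) : ℂ) * e (n * α) := by
        symm
        have h4 : ∑ n ∈ Icc 1 X, ((dz (zB B X) n : ℝ) : ℂ) * e (n * α) =
            ∑ n ∈ Icc 1 X, ((f n : ℝ) : ℂ) * e (n * α) := by
          refine sum_congr rfl fun n hn => ?_
          rw [mem_Icc] at hn
          rw [hf]
          simp only
          rw [if_pos hn.2]
        rw [h4]
        apply Finset.sum_subset
        · intro n hn
          rw [mem_Icc] at hn ⊢
          omega
        · intro n hn hn'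
          rw [mem_Icc] at hn hn'
          rw [hf]
          simp only
          rw [if_neg (by omega)]
          simp
      rw [h3]
      exact h1 X hX3 X le_rfl α)
  have h3 : ∑ N ∈ Icc 1 X, ((actual S N : ℝ) - expected (zB B X) S N) ^ 2 ≤
      (C * X / (Real.log X) ^ (2 * K + 1)) ^ 2 * X := by
    have h4 : ∑ N ∈ Icc 1 X, ((actual S N : ℝ) - expected (zB B X) S N) ^ 2 =
        ∑ N ∈ Icc 1 X, (∑ s ∈ (S ∩ Icc 1 X).filter (fun s => s < N), f (N - s)) ^ 2 := by
      refine sum_congr rfl fun N hN => ?_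
      rw [mem_Icc] at hN
      rw [← GL1_sum (zB B X) S N X hN.2]
      congr 1
      refine sum_congr rfl fun s _ => ?_
      rw [hf]
      simp only
      rw [if_pos (by omega)]
    rw [h4]
    refine (sum_le_sum_of_subset_of_nonneg ?_ fun N _ _ => sq_nonneg _).trans (h2.trans ?_)
    · intro N hN
      rw [mem_Icc] at hN ⊢
      omega
    · refine mul_le_mul_of_nonneg_left ?_ (sq_nonneg _)
      have h5 : (S ∩ Icc 1 X).card ≤ X := by
        have := card_le_card (inter_subset_right : S ∩ Icc 1 X ⊆ Icc 1 X)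
        rw [Nat.card_Icc] at this
        omega
      exact_mod_cast h5
  rw [← hLdef] at hLC hL hL1 h3 ⊢
  obtain ⟨E, hE⟩ : ∃ E : Finset ℕ, E = (Icc 1 X).filter (fun N => X / L ^ K <
        |(actual S N : ℝ) - expected (zB B X) S N|) := ⟨_, rfl⟩
  rw [← hE]
  have h4 : (E.card : ℝ) * (X / L ^ K) ^ 2 ≤
      ∑ N ∈ Icc 1 X, ((actual S N : ℝ) - expected (zB B X) S N) ^ 2 := by
    rw [← nsmul_eq_mul, ← sum_const]
    refine (sum_le_sum (g := fun N => ((actual S N : ℝ) - expected (zB B X) S N) ^ 2)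
      fun N hN => ?_).trans
      (sum_le_sum_of_subset_of_nonneg (by rw [hE]; exact filter_subset _ _)
        fun N _ _ => sq_nonneg _)
    rw [hE, mem_filter] at hN
    rw [← sq_abs ((actual S N : ℝ) - expected (zB B X) S N)]
    exact pow_le_pow_left₀ (by positivity) hN.2.le 2
  have h5 := h4.trans h3
  have hLK : 0 < L ^ K := pow_pos hL K
  have h6 : (C * X / L ^ (2 * K + 1)) ^ 2 * X = (X / L ^ K) ^ 2 * (C ^ 2 * X / L ^ (2 * K + 2)) := by
    have : L ^ (2 * K + 1) = L ^ K * L ^ K * L := by ring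
    rw [this]
    have h7 : L ^ (2 * K + 2) = L ^ K * L ^ K * L * L := by ring
    rw [h7]
    field_simp
  rw [h6, mul_comm] at h5
  have h7 : (0 : ℝ) < (X / L ^ K) ^ 2 := by positivity
  have h8 := le_of_mul_le_mul_left h5 h7
  refine h8.trans ?_
  rw [div_le_div_iff₀ (by positivity) hLK]
  have h9 : C ^ 2 ≤ L ^ (K + 2) := by
    have h10 : L ^ 1 ≤ L ^ (K + 2) := pow_le_pow_right₀ hL1 (by omega)
    rw [pow_one] at h10
    linarith
  have h11 : L ^ (2 * K + 2) = L ^ (K + 2) * L ^ K := by ring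
  rw [h11]
  have h12 : C ^ 2 * X * L ^ K ≤ L ^ (K + 2) * X * L ^ K := by
    refine mul_le_mul_of_nonneg_right ?_ hLK.le
    exact mul_le_mul_of_nonneg_right h9 hXpos.le
  linarith

end Pool.Agent.Lib.SW
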